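import Pool.Agent.Lib.MP_784a73_co.Mix.SH12
import Pool.Agent.Lib.MP_784a73_co.Full

/-!
# MP_784a73_co, Q1: every oriented graph that is not 2-mixing has maximum average degree at least 4

Digraphs are given by a relation `A` on a finite type `V` (`A a b`: there is an arc from `a` to `b`; so there are no parallel arcs).
-/

namespace Pool.Agent.Results.MP_784a73_co.MadFour

open Relation

section Definitions

variable {V : Type*}

/-- Oriented graph: no two opposite arcs; in particular (`a = b`) there are no loops. -/
def Oriented (A : V → V → Prop) : Prop := ∀ a b, A a b → ¬ A b a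

/-- `c` is a `k`-dicolouring of the digraph `A`: there is no directed cycle `p 0 → p 1 → ... → p n → p 0` (distinct vertices, indices
modulo `n + 1`) all of whose vertices have the same colour. -/
def IsDicolouring (k : ℕ) (A : V → V → Prop) (c : V → Fin k) : Prop :=
  ¬ ∃ (n : ℕ) (p : Fin (n + 1) → V), Function.Injective p ∧ (∀ i, A (p i) (p (i + 1))) ∧ ∀ i j, c (p i) = c (p j)

/-- The `k`-dicolouring graph: its vertices are the `k`-dicolourings, two of them are adjacent when they differ on exactly one
vertex. -/
def dicolouringGraph (k : ℕ) (A : V → V → Prop) : SimpleGraph {c : V → Fin k // IsDicolouring k A c} where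
  Adj c d := ∃ v, c.1 v ≠ d.1 v ∧ ∀ w, w ≠ v → c.1 w = d.1 w
  symm := ⟨by
    rintro c d ⟨v, h1, h2⟩
    exact ⟨v, fun h => h1 h.symm, fun w hw => (h2 w hw).symm⟩⟩
  loopless := ⟨by
    rintro c ⟨v, h1, _⟩
    exact h1 rfl⟩

/-- `A` is `k`-mixing: the `k`-dicolouring graph is connected (there is a `k`-dicolouring, and any two of them are joined by a path). -/
def Mixing (k : ℕ) (A : V → V → Prop) : Prop := (dicolouringGraph k A).Connected

/-- The maximum average degree: the supremum (a maximum, since there are finitely many subdigraphs) of `2|B|/|S|` over all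
subdigraphs, `S` their nonempty vertex set, `B` their arc set. -/
noncomputable def Mad (A : V → V → Prop) : ℝ :=
  sSup {x : ℝ | ∃ (S : Finset V) (B : Finset (V × V)), S.Nonempty ∧ (∀ e ∈ B, e.1 ∈ S ∧ e.2 ∈ S ∧ A e.1 e.2) ∧
    x = 2 * (B.card : ℝ) / (S.card : ℝ)}

end Definitions

/-- **Every oriented graph that is not 2-mixing has maximum average degree at least 4.** -/
theorem result {V : Type*} [Fintype V] (A : V → V → Prop) (hA : Oriented A) (hmix : ¬ Mixing 2 A) : 4 ≤ Mad A := by
  classical
  have hmain : ∀ (E : Finset (V × V)) (W : Finset V), Mix.Good E W → Mix.Conn E W := fun E W h => Mix.main h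
  by_cases hne : Nonempty {c : V → Fin 2 // IsDicolouring 2 A c}
  · have hpre : ¬ Pool.Agent.MP_784a73_co.Mixing 2 A := fun h => hmix (by
      have := hne
      exact SimpleGraph.Connected.mk h)
    exact Mix.official_of_main hmain hA hpre
  · by_contra hlt
    apply hne
    have hG : Mix.Good (Pool.Agent.MP_784a73_co.arcSet A) Finset.univ := by
      refine ⟨fun p _ q _ => Pool.Agent.MP_784a73_co.ori_arcSet hA p q, fun H _ hH => ?_⟩
      have h1 := Pool.Agent.MP_784a73_co.le_mad (A := A) hH
      have h2 : 2 * (Pool.Agent.MP_784a73_co.eN (Pool.Agent.MP_784a73_co.arcSet A) H : ℝ) / (H.card : ℝ) < 4 :=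
        lt_of_le_of_lt h1 (not_le.1 hlt)
      have h3 : (0 : ℝ) < H.card := by exact_mod_cast hH.card_pos
      rw [div_lt_iff₀ h3] at h2
      have h4 : (Pool.Agent.MP_784a73_co.eN (Pool.Agent.MP_784a73_co.arcSet A) H : ℝ) < 2 * H.card := by linarith
      have h5 : Pool.Agent.MP_784a73_co.eN (Pool.Agent.MP_784a73_co.arcSet A) H < 2 * H.card := by exact_mod_cast h4
      have h6 : Pool.Agent.MP_784a73_co.eN (Pool.Agent.MP_784a73_co.arcSet A) H =
          Mix.ecard (Pool.Agent.MP_784a73_co.arcSet A) H := rfl
      unfold Mix.ff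
      omega
    obtain ⟨c, hc⟩ := Mix.Good.exists_val hG
    exact ⟨⟨Pool.Agent.MP_784a73_co.ofBool c, Pool.Agent.MP_784a73_co.val_arcSet.1 hc⟩⟩

end Pool.Agent.Results.MP_784a73_co.MadFour
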